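import Pool.Agent.Run7.h879.FCase

/-!
# Both cases: solutions of Fermat's equation over number fields are very large

Let `K` be a number field of degree `m` and `p > m + 1` a prime. Every solution in nonzero elements
of `K` of `a ^ p + b ^ p + c ^ p = 0` of height `H (a : b : c) < p ^ p / (2 p) ^ m` is in the first
case at every prime above `p`. If moreover `p` satisfies a Bernoulli condition and a condition on the
decomposition of `p` in `K` or on `2 ^ (p - 1)` modulo `p ^ 2`, there are no such solutions: then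
all solutions have height at least `p ^ (p - m) / 2 ^ m`.

For instance this holds for all fields of odd degree `m` if `2 ^ (p - 1)` is not `1` modulo `p ^ 2`
and `p` does not divide `B (p - 3), ..., B (p - 2 m - 1)`; there is no condition on the class group,
the units, the ramification or the real places of `K`.
-/

set_option autoImplicit false

namespace Pool.Agent.Results.MP_ef6a16_nt.AllSolutionsLarge

open NumberField IsDedekindDomain

/-- The even numbers `k` with `2 ≤ k ≤ p - 3` for which `p` divides the numerator of the Bernoulli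
number with index `k`. Their number is the index of irregularity of `p`. -/
def Irregular (p : ℕ) : Finset ℕ :=
  (Finset.range p).filter fun k => Even k ∧ 2 ≤ k ∧ k + 3 ≤ p ∧ (p : ℤ) ∣ (bernoulli k).num

/-- The Bernoulli condition for the degree `m`: `p` divides none of `B (p - 3), …, B (p - 2 m - 1)`,
or the index of irregularity of `p` is small. -/
def BernoulliCondition (m p : ℕ) : Prop :=
  (2 * m + 3 ≤ p ∧ ∀ k ∈ Irregular p, k + 2 * m + 1 < p) ∨
    m * (((Irregular p).card + 1) * ((Irregular p).card + 2)) + 3 ≤ p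

/-- One of: the degree `m` is odd and `2 ^ (p - 1)` is not `1` modulo `p ^ 2`, or at most two primes
of `K` lie above `p`; there is a prime above `p` of large local degree `e f` (compared with `m / 2`,
`m / 3` or `m / 6`); the degree is prime to three and no prime above `p` has norm `1` modulo three,
`p` being `2` modulo three; `2 ^ (p - 1)` is not `1` modulo `p ^ 2` and the primes above two have norm
two, the degree being prime to three or the prime above two unique. -/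
def DecompositionCondition (K : Type) [Field K] [NumberField K] (m p : ℕ) : Prop :=
  (Odd m ∧ (¬ p ^ 2 ∣ 2 ^ (p - 1) - 1 ∨ ¬ ∃ v₁ v₂ v₃ : HeightOneSpectrum (𝓞 K),
    v₁ ≠ v₂ ∧ v₁ ≠ v₃ ∧ v₂ ≠ v₃ ∧ ((p : ℕ) : 𝓞 K) ∈ v₁.asIdeal ∧ ((p : ℕ) : 𝓞 K) ∈ v₂.asIdeal ∧
    ((p : ℕ) : 𝓞 K) ∈ v₃.asIdeal)) ∨
  (∃ (v : HeightOneSpectrum (𝓞 K)) (e f : ℕ), ((p : ℕ) : 𝓞 K) ∈ v.asIdeal ^ e ∧
    Ideal.absNorm v.asIdeal = p ^ f ∧
    ((m < 2 * (e * f) ∧ (p % 3 = 1 ∨ Odd f)) ∨
     (m < 3 * (e * f) ∧ p % 3 = 2 ∧ Odd f ∧ ¬ 3 ∣ f) ∨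
     (m < 6 * (e * f) ∧ p % 3 = 2 ∧ Odd f ∧ ¬ 3 ∣ f ∧ ¬ p ^ 2 ∣ 2 ^ (p - 1) - 1))) ∨
  (¬ 3 ∣ m ∧ p % 3 = 2 ∧ ∀ v : HeightOneSpectrum (𝓞 K), ((p : ℕ) : 𝓞 K) ∈ v.asIdeal →
    Ideal.absNorm v.asIdeal % 3 ≠ 1) ∨
  (¬ p ^ 2 ∣ 2 ^ (p - 1) - 1 ∧
    (∀ P : Ideal (𝓞 K), P.IsPrime → (2 : 𝓞 K) ∈ P → Nat.card (𝓞 K ⧸ P) = 2) ∧
    (¬ 3 ∣ m ∨ ∀ P P' : Ideal (𝓞 K), P.IsPrime → P'.IsPrime →
      (2 : 𝓞 K) ∈ P → (2 : 𝓞 K) ∈ P' → P = P'))

theorem result (K : Type) [Field K] [NumberField K] (m : ℕ) (hm : Module.finrank ℚ K = m)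
    (p : ℕ) (hp : p.Prime) (hmp : m + 1 < p) (a b c : K) (ha : a ≠ 0) (hb : b ≠ 0) (hc : c ≠ 0)
    (h : a ^ p + b ^ p + c ^ p = 0) :
    (p : ℝ) ^ p ≤ (2 * p) ^ m * Height.mulHeight ![a, b, c] ∨
    ((∀ v : HeightOneSpectrum (𝓞 K), ((p : ℕ) : 𝓞 K) ∈ v.asIdeal →
        v.valuation K a = v.valuation K b ∧ v.valuation K b = v.valuation K c) ∧
      ¬ (BernoulliCondition m p ∧ DecompositionCondition K m p)) := by
  subst hm
  by_cases hv : ∀ v : HeightOneSpectrum (𝓞 K), ((p : ℕ) : 𝓞 K) ∈ v.asIdeal →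
      v.valuation K a = v.valuation K b ∧ v.valuation K b = v.valuation K c
  · refine Or.inr ⟨hv, fun hcon => ?_⟩
    exact Run7.h879.FCase.no_first hp hcon.1 hcon.2 ha hb hc h hv
  · push Not at hv
    obtain ⟨v, hvp, hne⟩ := hv
    exact Or.inl (Run7.h879.Second.main hp hmp ha hb hc h v hvp fun hcon =>
      hne hcon.1 hcon.2)

end Pool.Agent.Results.MP_ef6a16_nt.AllSolutionsLarge
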