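import Pool.Agent.Run7.h702.CT.C
import Pool.Agent.Run7.h879.Sp8

/-!
# Fermat's equation over an arbitrary number field: the exponents near ALL the terms of almost every Collatz trajectory

Let `K` be any number field without a primitive cube root of unity and `r` its unit rank, `0 < θ < 1`, `c > 0`, `d ≥ 1`,
`κ ≥ 0` and `d θ (r - 1) + κ < 1` (for `r ≤ 1` every `θ < 1` and `κ < 1` are allowed). There is `η > 0` such that for every `B`
there is `C` with: for all `Y ≥ 2` and `N`, for all `m ≤ N` but at most `C N / (log Y) ^ B`, the trajectory of `m` under the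
Collatz map (`n / 2`, `3 n + 1`) has a value smaller than `Y`, and for EVERY term `v` before it, ALL `1 ≤ b ≤ v ^ η` and EVERY
prime `p` with `|p - b c v ^ d| ≤ v ^ (κ + η)` all solutions of `x ^ p + y ^ p + z ^ p = 0` in nonzero elements of `K` have a
logarithmic height larger than `p ^ θ`. So if `F` tends to infinity, however slowly, then for almost every `m` this holds for
all the terms of the trajectory of `m` down to its first value smaller than `F m`. More generally `G v` takes the place of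
`c v ^ d`, where `G` is any function with steps bounded below by a positive constant and growth at most `v ^ d`.

The theorem `SparsePrimes` of this page (helper879) bounds the number of the exceptional primes.
The terms of the trajectory of a random integer are not distributed like random integers of their size. The tool is the
avoidance of thin sets by all the terms of almost every trajectory (starting theorem; Tao's theorem in natural density), in the
form of `Run7/h702/CT` (multiples and windows).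
-/

set_option autoImplicit false

namespace Pool.Agent.Results.MP_ef6a16_nt.CollatzTerms

open NumberField Finset Filter Topology
open Height

/-- The Collatz map. -/
def collatz (n : ℕ) : ℕ := if n % 2 = 0 then n / 2 else 3 * n + 1

/-- The trajectory of `m` takes a value smaller than `Y`, and EVERY term `v` before it has the property `P`. -/
def AllTerms (P : ℕ → Prop) (Y : ℝ) (m : ℕ) : Prop :=
  ∃ k : ℕ, ((collatz^[k] m : ℕ) : ℝ) < Y ∧ ∀ j < k, P (collatz^[j] m)

/-- `P` holds for all the terms of almost every trajectory: (1) for every `B` there is `K` such that `AllTerms P Y m` holds, for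
all `Y ≥ 2` and `N`, for all the `m ∈ [1, N]` but at most `K N / (log Y)^B`; (2) for every function `F` which tends to infinity
the density of the `m` with `AllTerms P (F m) m` is `1`. -/
def OnAllTerms (P : ℕ → Prop) : Prop :=
  (∀ B : ℕ, ∃ K : ℝ, ∀ Y : ℝ, 2 ≤ Y → ∀ N : ℕ,
    (Set.ncard {m : ℕ | 1 ≤ m ∧ m ≤ N ∧ ¬ AllTerms P Y m} : ℝ) ≤ K * N / Real.log Y ^ B) ∧
  ∀ F : ℕ → ℝ, Tendsto F atTop atTop →
    Tendsto (fun N : ℕ => (Set.ncard {m : ℕ | 1 ≤ m ∧ m ≤ N ∧ AllTerms P (F m) m} : ℝ) / N) atTop (𝓝 1)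

/-- The steps of `G` are at least a positive constant, and `G` grows at most like `v ^ d`, `d ≥ 1`. -/
structure Expanding (G : ℕ → ℝ) (d : ℝ) : Prop where
  one_le : 1 ≤ d
  step : ∃ a : ℝ, 0 < a ∧ ∀ v : ℕ, 1 ≤ v → a ≤ G (v + 1) - G v
  growth : ∃ C : ℝ, ∀ v : ℕ, 1 ≤ v → G v ≤ C * (v : ℝ) ^ d

/-- `x` is near one of the small multiples of `G v`. -/
def Near (G : ℕ → ℝ) (κ η : ℝ) (v : ℕ) (x : ℝ) : Prop :=
  ∃ a : ℕ, 1 ≤ a ∧ (a : ℝ) ≤ (v : ℝ) ^ η ∧ |x - a * G v| ≤ (v : ℝ) ^ (κ + η)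

theorem ex_of {G : ℕ → ℝ} {d : ℝ} (h : Expanding G d) : Pool.Agent.N733.TG.Expanding G d := ⟨h.one_le, h.step, h.growth⟩

theorem ex_pow {a d : ℝ} (ha : 0 < a) (hd : 1 ≤ d) : Expanding (fun v => a * (v : ℝ) ^ d) d := by
  obtain ⟨h1, h2, h3⟩ := Pool.Agent.N733.TG.expanding_pow ha hd
  exact ⟨h1, h2, h3⟩

theorem on_of {P : ℕ → Prop} (h : Run7.h702.CT.OnAllTerms P) : OnAllTerms P := h

/-- All solutions of Fermat's equation with exponent `p` in nonzero elements of `K` have logarithmic height `> p ^ θ`. -/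
def NoSmallSolution (K : Type) [Field K] [NumberField K] (θ : ℝ) (p : ℕ) : Prop :=
  ∀ a b c : K, a ≠ 0 → b ≠ 0 → c ≠ 0 → a ^ p + b ^ p + c ^ p = 0 → (p : ℝ) ^ θ < logHeight ![a, b, c]

/-- the number of the exceptional primes, with an exponent -/
theorem bad_count {K : Type} [Field K] [NumberField K] (hω : ∀ z : K, z ^ 2 + z + 1 ≠ 0) (θ : ℝ) (hθ : 0 < θ)
    (hθ1 : θ < 1) : ∀ ε : ℝ, 0 < ε → ∃ C : ℝ, ∀ X : ℕ, 1 ≤ X →
    ({t : ℕ | 1 ≤ t ∧ t ≤ X ∧ t.Prime ∧ ¬ NoSmallSolution K θ t}.ncard : ℝ) ≤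
      C * (X : ℝ) ^ (θ * ((Units.rank K - 1 : ℕ) : ℝ) + ε) := by
  intro ε hε
  obtain ⟨C, hC⟩ := Run7.h879.Sp.main_one hω
  obtain ⟨ρ, hρ⟩ : ∃ ρ : ℝ, ρ = θ * ((Units.rank K - 1 : ℕ) : ℝ) := ⟨_, rfl⟩
  have hρ0 : 0 ≤ ρ := by rw [hρ]; positivity
  obtain ⟨C2, hC20, hC2⟩ := Run7.h879.Sp.log_pow_le (Units.rank K + 1) ε hε
  obtain ⟨N, hN⟩ := Run7.h879.Sp.exists_large (Module.finrank ℚ K) θ hθ hθ1
  refine ⟨N + |C| * C2, fun P hP => ?_⟩
  have hP1 : (1 : ℝ) ≤ P := by exact_mod_cast hP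
  rcases Nat.lt_or_ge P 2 with hP2 | hP2
  · have e : {t : ℕ | 1 ≤ t ∧ t ≤ P ∧ t.Prime ∧ ¬ NoSmallSolution K θ t} = ∅ := by
      ext t
      simp only [Set.mem_setOf_eq, Set.mem_empty_iff_false, iff_false]
      rintro ⟨-, h2, h3, -⟩
      have := h3.two_le
      omega
    rw [e, Set.ncard_empty, Nat.cast_zero]
    positivity
  have hPθ : (1 : ℝ) ≤ (P : ℝ) ^ θ := Real.one_le_rpow hP1 hθ.le
  have h1 := hC P ((P : ℝ) ^ θ) hP2 hPθ
  have hfin : (Run7.h879.Sp.Exc K P ((P : ℝ) ^ θ)).Finite :=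
    (Finset.finite_toSet (Finset.range (P + 1))).subset fun p hp => by
      rw [Finset.mem_coe, Finset.mem_range]
      have := hp.2.1
      omega
  have h2 : {t : ℕ | 1 ≤ t ∧ t ≤ P ∧ t.Prime ∧ ¬ NoSmallSolution K θ t} ⊆
      ((Finset.range N : Finset ℕ) : Set ℕ) ∪ Run7.h879.Sp.Exc K P ((P : ℝ) ^ θ) := by
    rintro p ⟨-, hpP, hp, hnot⟩
    unfold NoSmallSolution at hnot
    push Not at hnot
    obtain ⟨a, b, c, ha, hb, hc, h, hh⟩ := hnot
    by_cases hpN : p < N
    · left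
      rw [Finset.mem_coe, Finset.mem_range]
      exact hpN
    · right
      push Not at hpN
      have h3 := hN p hpN
      refine ⟨hp, hpP, a, b, c, ha, hb, hc, h, hh.trans ?_, ?_⟩
      · exact Real.rpow_le_rpow (Nat.cast_nonneg _) (by exact_mod_cast hpP) hθ.le
      · have h4 : 0 < mulHeight ![a, b, c] := by
          have := one_le_mulHeight ![a, b, c]
          linarith
        rw [← Real.log_lt_log_iff (by positivity) (by positivity), Real.log_mul (by positivity)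
          h4.ne', Real.log_pow, Real.log_pow]
        have h5 : Real.log (mulHeight ![a, b, c]) ≤ (p : ℝ) ^ θ := hh
        linarith
  have h3 : {t : ℕ | 1 ≤ t ∧ t ≤ P ∧ t.Prime ∧ ¬ NoSmallSolution K θ t}.ncard ≤
      N + (Run7.h879.Sp.Exc K P ((P : ℝ) ^ θ)).ncard := by
    refine (Set.ncard_le_ncard h2 ((Finset.finite_toSet _).union hfin)).trans ?_
    refine (Set.ncard_union_le _ _).trans ?_
    rw [Set.ncard_coe_finset, Finset.card_range]
  have h4 := hC2 P hP
  have e1 : 2 * (Units.rank K + 1) = 2 * Units.rank K + 2 := by ring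
  rw [e1] at h4
  have e2 : ((P : ℝ) ^ θ) ^ (Units.rank K - 1) = (P : ℝ) ^ ρ := by
    rw [hρ, Real.rpow_mul (by linarith), Real.rpow_natCast]
  rw [e2] at h1
  have hlog : 0 ≤ Real.log P := Real.log_nonneg hP1
  have h5 : C * Real.log P ^ (2 * Units.rank K + 2) * (P : ℝ) ^ ρ ≤ |C| * C2 * (P : ℝ) ^ (ρ + ε) := by
    have e3 : (P : ℝ) ^ (ρ + ε) = (P : ℝ) ^ ε * (P : ℝ) ^ ρ := by
      rw [← Real.rpow_add (by linarith)]
      congr 1
      ring
    rw [e3]
    have hPρ : 0 ≤ (P : ℝ) ^ ρ := by positivity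
    calc C * Real.log P ^ (2 * Units.rank K + 2) * (P : ℝ) ^ ρ
        ≤ |C| * Real.log P ^ (2 * Units.rank K + 2) * (P : ℝ) ^ ρ := by
          apply mul_le_mul_of_nonneg_right _ hPρ
          exact mul_le_mul_of_nonneg_right (le_abs_self C) (by positivity)
      _ ≤ |C| * (C2 * (P : ℝ) ^ ε) * (P : ℝ) ^ ρ := by
          apply mul_le_mul_of_nonneg_right _ hPρ
          exact mul_le_mul_of_nonneg_left h4 (abs_nonneg _)
      _ = _ := by ring
  have h6 : (1 : ℝ) ≤ (P : ℝ) ^ (ρ + ε) := Real.one_le_rpow hP1 (by linarith)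
  rw [← hρ]
  calc ({t : ℕ | 1 ≤ t ∧ t ≤ P ∧ t.Prime ∧ ¬ NoSmallSolution K θ t}.ncard : ℝ)
      ≤ N + ((Run7.h879.Sp.Exc K P ((P : ℝ) ^ θ)).ncard : ℝ) := by exact_mod_cast h3
    _ ≤ N * (P : ℝ) ^ (ρ + ε) + |C| * C2 * (P : ℝ) ^ (ρ + ε) := by
        apply add_le_add
        · exact le_mul_of_one_le_right (Nat.cast_nonneg _) h6
        · exact h1.trans h5
    _ = _ := by ring

/-- **Fermat's equation with exponents near all the terms of almost every Collatz trajectory.** -/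
theorem result (K : Type) [Field K] [NumberField K] (hω : ∀ z : K, z ^ 2 + z + 1 ≠ 0) :
    (∀ θ : ℝ, 0 < θ → θ < 1 → ∀ (G : ℕ → ℝ) (d : ℝ), Expanding G d → ∀ κ : ℝ, 0 ≤ κ →
      d * (θ * ((Units.rank K - 1 : ℕ) : ℝ)) + κ < 1 → ∃ η : ℝ, 0 < η ∧
      OnAllTerms (fun v => ∀ p : ℕ, p.Prime → Near G κ η v (p : ℝ) → NoSmallSolution K θ p)) ∧
    ∀ α d : ℝ, 0 < α → 1 ≤ d → Expanding (fun v => α * (v : ℝ) ^ d) d := by
  refine ⟨fun θ hθ hθ1 G d hG κ hκ h1 => ?_, fun α d hα hd => ex_pow hα hd⟩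
  obtain ⟨η, hη, h2⟩ := Run7.h702.CT.good_nat Nat.Prime (NoSmallSolution K θ) (ex_of hG)
    (s := θ * ((Units.rank K - 1 : ℕ) : ℝ)) (κ := κ) (by positivity) hκ h1 (bad_count hω θ hθ hθ1)
  refine ⟨η, hη, on_of (h2.imp (fun v hv p hp hN => ?_))⟩
  obtain ⟨a, ha1, ha2, ha3⟩ := hN
  exact hv a ha1 ha2 p hp.one_le hp ha3

end Pool.Agent.Results.MP_ef6a16_nt.CollatzTerms
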