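import Pool.Agent.Run7.h879.Sp8

/-!
# Fermat's equation over an arbitrary number field: small solutions exist only for very few primes

Let `K` be any number field without a primitive cube root of unity, of degree `d` and unit rank `r`.
The number of primes `p ≤ P` for which `a ^ p + b ^ p + c ^ p = 0` has a solution in nonzero elements
of `K` of logarithmic height at most `Y` (and less than `(p - d) log 2`) is at most
`C (log P) ^ (2 r + 2) Y ^ (r - 1)`. So for all but a power of `log P` of the primes `p ≤ P` all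
solutions have height at least `P ^ A`, and for almost all primes they have logarithmic height at
least `p ^ θ`, for every `θ < min (1, 1 / (r - 1))`.

Proof. If the height is less than `2 ^ (p - d)` the sums `a + b`, `b + c`, `c + a` differ by units
`x`, `y`. A prime ideal dividing only one of `a, b, c` shows that the units determine `p`; if there
is none then `a, b, c` differ by units, which is impossible for large `p` by the theorem on unit
equations. At each infinite place two of the three sums are of maximal absolute value up to a factor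
`16 p`. So the logarithms of `x` and `y` lie within `log (16 p)` of a union of `3 ^ (r + 1)` linear
spaces, which have dimension `r - 1` except for those in which the logarithms are `O (log p)`.
-/

set_option autoImplicit false

namespace Pool.Agent.Results.MP_ef6a16_nt.SparsePrimes

open NumberField

theorem result (K : Type) [Field K] [NumberField K] (hω : ∀ z : K, z ^ 2 + z + 1 ≠ 0) :
    (∃ C : ℝ, ∀ (P : ℕ) (Y : ℝ), 2 ≤ P → 1 ≤ Y →
      (({p : ℕ | p.Prime ∧ p ≤ P ∧ ∃ a b c : K, a ≠ 0 ∧ b ≠ 0 ∧ c ≠ 0 ∧ a ^ p + b ^ p + c ^ p = 0 ∧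
        Height.logHeight ![a, b, c] ≤ Y ∧
        2 ^ Module.finrank ℚ K * Height.mulHeight ![a, b, c] < 2 ^ p}.ncard : ℕ) : ℝ) ≤
      C * Real.log P ^ (2 * Units.rank K + 2) * Y ^ (Units.rank K - 1)) ∧
    (∀ θ : ℝ, 0 < θ → θ < 1 → θ * ((Units.rank K - 1 : ℕ) : ℝ) < 1 →
      ∃ C δ : ℝ, 0 < δ ∧ ∀ P : ℕ, 2 ≤ P →
        (({p : ℕ | p.Prime ∧ p ≤ P ∧ ∃ a b c : K, a ≠ 0 ∧ b ≠ 0 ∧ c ≠ 0 ∧ a ^ p + b ^ p + c ^ p = 0 ∧
          Height.logHeight ![a, b, c] ≤ (p : ℝ) ^ θ}.ncard : ℕ) : ℝ) ≤ C * (P : ℝ) ^ (1 - δ)) :=
  ⟨Run7.h879.Sp.main_one hω, fun θ h0 h1 h2 => Run7.h879.Sp.main_two hω θ h0 h1 h2⟩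

end Pool.Agent.Results.MP_ef6a16_nt.SparsePrimes
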