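import Pool.Agent.Run7.h879.SH.R8

/-!
# Fermat's equation over an arbitrary number field: solutions have superpolynomial height

Let `K` be any number field. For every `A` and every large prime `p`, every solution of
`a ^ p + b ^ p + c ^ p = 0` in nonzero elements of `K` has height at least `p ^ A`, or is
proportional to `(1, ω, ω²)`, or `a, b, c` divided by their (nonzero) sum are the three roots of an
irreducible cubic polynomial over `ℚ` whose complex roots are all real. So if `K` contains no
totally real cubic field then for every `A` all solutions for large `p` other than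
`(1, ω, ω²)` have height at least `p ^ A`.

Proof. If the height is less than `p ^ A` then the sums `a + b`, `b + c`, `c + a` differ by units
`x`, `y` and `p` divides `1 + x + y`. The set of such solutions (for infinitely many `p`) gives an
ultraproduct, in which the Subspace Theorem for number fields shows that units which are
multiplicatively independent modulo constants are algebraically independent, and that the values
of coprime polynomials in them have no large common divisor. As `p` divides `1 + x + y` and all its
conjugates, the points `(1 : x : y)` and `(1 : σ x : σ y)` agree up to a permutation of the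
coordinates if `x`, `y` are independent; then the symmetric functions of `a, b, c` divided by their
sum are rational. If `x`, `y` are dependent then the product formula and the fact that two of the
three sums are of maximal absolute value up to `16 p` at each place show that, for a choice of the
middle sum, the quotients are conjugate units of a real quadratic field or equal to rational
numbers, and that `1 + z + z'` is `2 p` times a nonzero rational integer; the resulting equation has
no real solutions. If the cubic has a non-real root then Fermat's equation shows that the quotient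
of the two non-real conjugates tends to `± i` like a power of `p`, against the Subspace Theorem.
-/

set_option autoImplicit false

namespace Pool.Agent.Results.MP_ef6a16_nt.SuperpolynomialHeight

open NumberField Polynomial

theorem result (K : Type) [Field K] [NumberField K] :
    (∀ A : ℕ, ∃ P : ℕ, ∀ p : ℕ, p.Prime → P ≤ p → ∀ a b c : K, a ≠ 0 → b ≠ 0 → c ≠ 0 →
      a ^ p + b ^ p + c ^ p = 0 →
        (p : ℝ) ^ A ≤ Height.mulHeight ![a, b, c] ∨
        (a + b + c = 0 ∧ a ^ 2 + a * b + b ^ 2 = 0) ∨
        (a + b + c ≠ 0 ∧ ∃ f : ℚ[X], Irreducible f ∧ f.natDegree = 3 ∧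
          (∀ z : ℂ, aeval z f = 0 → z.im = 0) ∧ f.map (algebraMap ℚ K) =
            (X - C (a / (a + b + c))) * (X - C (b / (a + b + c))) * (X - C (c / (a + b + c))))) ∧
    ((∀ F : IntermediateField ℚ K, Module.finrank ℚ F = 3 → ¬ IsTotallyReal F) →
      ∀ A : ℕ, ∃ P : ℕ, ∀ p : ℕ, p.Prime → P ≤ p → ∀ a b c : K, a ≠ 0 → b ≠ 0 → c ≠ 0 →
        a ^ p + b ^ p + c ^ p = 0 →
          (p : ℝ) ^ A ≤ Height.mulHeight ![a, b, c] ∨
          (a + b + c = 0 ∧ a ^ 2 + a * b + b ^ 2 = 0)) ∧
    ((∀ F : IntermediateField ℚ K, Module.finrank ℚ F = 3 → ¬ IsTotallyReal F) →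
      (∀ z : K, z ^ 2 + z + 1 ≠ 0) →
      ∀ A : ℕ, ∃ P : ℕ, ∀ p : ℕ, p.Prime → P ≤ p → ∀ a b c : K, a ≠ 0 → b ≠ 0 → c ≠ 0 →
        a ^ p + b ^ p + c ^ p = 0 → (p : ℝ) ^ A ≤ Height.mulHeight ![a, b, c]) := by
  have h1 := Run7.h879.SH.main K
  have h2 : (∀ F : IntermediateField ℚ K, Module.finrank ℚ F = 3 → ¬ IsTotallyReal F) →
      ∀ A : ℕ, ∃ P : ℕ, ∀ p : ℕ, p.Prime → P ≤ p → ∀ a b c : K, a ≠ 0 → b ≠ 0 → c ≠ 0 →
        a ^ p + b ^ p + c ^ p = 0 →
          (p : ℝ) ^ A ≤ Height.mulHeight ![a, b, c] ∨
          (a + b + c = 0 ∧ a ^ 2 + a * b + b ^ 2 = 0) := by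
    intro hF A
    obtain ⟨P, hP⟩ := h1 A
    refine ⟨P, fun p hp hpP a b c ha hb hc h => ?_⟩
    rcases hP p hp hpP a b c ha hb hc h with h3 | h3 | h3
    · exact Or.inl h3
    · exact Or.inr h3
    · obtain ⟨F, hF1, hF2⟩ := Run7.h879.SH.real_sub a b c h3.2
      exact absurd hF2 (hF F hF1)
  refine ⟨h1, h2, fun hF hω A => ?_⟩
  obtain ⟨P, hP⟩ := h2 hF A
  refine ⟨P, fun p hp hpP a b c ha hb hc h => ?_⟩
  rcases hP p hp hpP a b c ha hb hc h with h3 | h3
  · exact h3
  · exfalso
    refine hω (a / b) ?_
    rw [div_pow, div_add_div _ _ (pow_ne_zero 2 hb) hb, div_add_one (by positivity)]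
    rw [div_eq_zero_iff]
    left
    linear_combination b * h3.2

end Pool.Agent.Results.MP_ef6a16_nt.SuperpolynomialHeight
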